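import Mathlib
import Pool.Agent.W_MP_b733c5_pr.Final
import Pool.Agent.W_MP_b733c5_pr.Fekete

set_option autoImplicit false

open AsympCap

namespace Pool.Agent.Results.MP_b733c5_pr.NotAnalytic

/-- For `d = 4` and `S = {±e_1, …, ±e_4}` the asymptotic capacity of the range is not real-analytic
on `Δ_S`. The second part is the same statement for the limit of the means `E_μ[Cap_μ(R_n)] / n`,
whose existence for every `μ ∈ Δ_S` is part of the statement, together with the fact that it agrees
on `Δ_S` with the almost sure asymptotic capacity. -/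
theorem result :
    (∀ c : (nnSteps 4 → ℝ) → ℝ, IsAsymptoticCapacity (nnSteps 4) c →
      ¬ RealAnalyticOnDelta (nnSteps 4) c) ∧
    (∃ c : (nnSteps 4 → ℝ) → ℝ, IsMeanAsymptoticCapacity (nnSteps 4) c ∧
      (∀ c' : (nnSteps 4 → ℝ) → ℝ, IsAsymptoticCapacity (nnSteps 4) c' →
        ∀ μ ∈ Delta (nnSteps 4), c' μ = c μ) ∧
      ¬ RealAnalyticOnDelta (nnSteps 4) c) := by
  have hmean : ∀ c : (nnSteps 4 → ℝ) → ℝ, IsMeanAsymptoticCapacity (nnSteps 4) c →
      ¬ RealAnalyticOnDelta (nnSteps 4) c := by
    intro c hc h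
    refine not_differentiableAt_of_mean (fun μ hμ => ?_) (differentiableAt_of_analytic h)
    have := hc μ hμ
    simpa only [integral_capacity hμ] using this
  refine ⟨fun c hc h => not_differentiableAt_of_mean
    (fun μ hμ => ECap_tendsto hμ (hc μ hμ)) (differentiableAt_of_analytic h), ?_⟩
  obtain ⟨c, hc⟩ := exists_isMean (nnSteps 4)
  refine ⟨c, hc, fun c' hc' μ hμ => ?_, hmean c hc⟩
  have h1 := ECap_tendsto hμ (hc' μ hμ)
  have h2 := hc μ hμ
  simp only [integral_capacity hμ] at h2
  exact tendsto_nhds_unique h1 h2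

end Pool.Agent.Results.MP_b733c5_pr.NotAnalytic
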